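import Pool.Agent.Results.MP_047497_nt.AlmostAllWeights
import Pool.Agent.X283.BZ.Maximal

/-!
# The mean square of the local maxima of the Barnes multiple zeta-function in the strip, for almost all weights

For every `d ≥ 1` and almost every `v ∈ ℝ^d` the following holds for all `r ≥ 2`, all positive weights `w` which span
the same `ℚ`-space as `v`, all `a > 0`, `σ₁` and `ε > 0`: the integral over `3 ≤ t ≤ T` of the supremum of
`|ζ_r(σ + iu; a, w)|²` over ALL `σ ∈ [r - d/2, σ₁]` and ALL `u` with `|u - t| ≤ 1` is `O(T^(1+ε))`; and so is the sum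
of `|ζ_r(σ(t) + it; a, w)|²` over the `t` in any finite set of ordinates in `[3, T]` with mutual distances `≥ 1`, for
any choice of the abscissas `σ(t) ∈ [r - d/2, σ₁]`.
-/

set_option autoImplicit false

open Filter Topology MeasureTheory

namespace Pool.Agent.Results.MP_047497_nt.MaximalMeanSquare

open Pool.Agent.Results.MP_047497_nt.AlmostAllWeights (IsBarnesZeta weightDim exists_zeta bound_of_good)

/-- The supremum of `|Z(σ + iu)|²` over all `σ ∈ [r - d/2, σ₁]` and all `u` with `|u - t| ≤ 1`, where `d` is the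
dimension of the weights. -/
noncomputable def localMax (r : ℕ) (w : Fin r → ℝ) (Z : ℂ → ℂ) (σ₁ t : ℝ) : ENNReal :=
  ⨆ (u : ℝ) (_ : |u - t| ≤ 1) (σ : ℝ) (_ : (r : ℝ) - (weightDim r w : ℝ) / 2 ≤ σ ∧ σ ≤ σ₁),
    ‖Z (σ + u * Complex.I)‖ₑ ^ 2

/-- The mean square of the local maxima, and the sum over sets of ordinates with mutual distances `≥ 1` (for
arbitrary abscissas in the strip), are `O(T^(1+ε))`. -/
def MaximalBound (r : ℕ) (w : Fin r → ℝ) : Prop :=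
  ∀ (a : ℝ) (Z : ℂ → ℂ), 0 < a → IsBarnesZeta r a w Z → ∀ σ₁ ε : ℝ, 0 < ε → ∃ C : ℝ, ∀ T : ℝ, 3 ≤ T →
    ∫⁻ t in Set.Icc 3 T, localMax r w Z σ₁ t ≤ ENNReal.ofReal (C * T ^ (1 + ε)) ∧
    ∀ (W : Finset ℝ) (σ : ℝ → ℝ), (∀ t ∈ W, 3 ≤ t ∧ t ≤ T) → (∀ t ∈ W, ∀ u ∈ W, t ≠ u → 1 ≤ |t - u|) →
      (∀ t ∈ W, (r : ℝ) - (weightDim r w : ℝ) / 2 ≤ σ t ∧ σ t ≤ σ₁) →
      ∑ t ∈ W, ‖Z (σ t + t * Complex.I)‖ ^ 2 ≤ C * T ^ (1 + ε)

theorem zeta_eq {r : ℕ} {a : ℝ} {w : Fin r → ℝ} {c : ℕ → ℂ} (ha : 0 < a) (hw : ∀ i, 0 < w i)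
    (hc : Pool.Agent.Y930.Bz.Tay a w c) {Z : ℂ → ℂ} (hZ : IsBarnesZeta r a w Z) (σ : ℝ) {t : ℝ}
    (ht : 0 < t) : Z ((σ : ℂ) + t * Complex.I) =
      Pool.Agent.H131R5.BZ.FF a w c ((σ : ℂ) + t * Complex.I) := by
  have hE := Pool.Agent.Y930.Bz.eq_FF ha hw hc (fun s hs => hZ.holomorphic s hs)
    (fun s hs => hZ.series s hs)
  have hm : ((σ : ℂ) + t * Complex.I) ∈ Pool.Agent.Y930.Bz.Om r := by
    intro k _ _ h
    have := congrArg Complex.im h
    simp at this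
    linarith
  exact hE _ hm

/-- **Theorem.** (1) The Barnes multiple zeta-function exists for all `r`, `a > 0` and positive weights. (2) For
every `d ≥ 1` and almost every `v ∈ ℝ^d`: all positive weights `w`, in any number `r ≥ 2`, which span the same
`ℚ`-space as `v` have dimension `d` and satisfy `MaximalBound`. -/
theorem result :
    (∀ (r : ℕ) (a : ℝ) (w : Fin r → ℝ), 0 < a → (∀ i, 0 < w i) → ∃ Z : ℂ → ℂ, IsBarnesZeta r a w Z) ∧
    ∀ d : ℕ, 1 ≤ d → ∀ᵐ v : Fin d → ℝ, LinearIndependent ℚ v ∧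
      ∀ (r : ℕ) (w : Fin r → ℝ), 2 ≤ r → (∀ i, 0 < w i) →
        Submodule.span ℚ (Set.range w) = Submodule.span ℚ (Set.range v) →
        weightDim r w = d ∧ MaximalBound r w := by
  refine ⟨exists_zeta, fun d hd => ?_⟩
  filter_upwards [Pool.Agent.Y616.BM.ae_good d, Pool.Agent.Y616.BM.ae_indep d] with v hG hv
  refine ⟨hv, fun r w hr hw hspan => ?_⟩
  have hdim : weightDim r w = d := (bound_of_good hd hv hG hw hspan).1
  refine ⟨hdim, fun a Z ha hZ σ₁ ε hε => ?_⟩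
  obtain ⟨B, e, he, -, -⟩ := Pool.Agent.Y616.BM.lin hv hspan
  have hdr : d ≤ r := by
    simpa using Fintype.card_le_of_injective e he
  have hdr' : (d : ℝ) ≤ r := Nat.cast_le.2 hdr
  have hr' : (2 : ℝ) ≤ r := by exact_mod_cast hr
  obtain ⟨c, hc⟩ := Pool.Agent.H131R5.BZ.exists_taylor a hw
  set m : ℝ := (r : ℝ) - d / 2 with hm
  have hm1 : 1 ≤ m := by linarith
  set κ : ℝ := min (ε / 4) (1 / 2) with hκ
  have hκ0 : 0 < κ := lt_min (by positivity) (by norm_num)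
  have hκ1 : κ ≤ 1 / 2 := min_le_right _ _
  have hκε : κ ≤ ε / 4 := min_le_left _ _
  obtain ⟨C₀, hC₀, h1⟩ := Pool.Agent.Y616.BM.second_moment' hv hG ha hw hspan hc
    (σ := m - κ) (m := m) (by linarith) (by linarith) le_rfl (ε := ε / 2) (by positivity)
  have e1 : 1 + 2 * (m - (m - κ)) + ε / 2 = 1 + 2 * κ + ε / 2 := by ring
  rw [e1] at h1
  obtain ⟨C, hC, h2⟩ := Pool.Agent.X283.BZ.maximal (σ₁ := σ₁) ha hw hc (α := m - κ)
    (by linarith) hκ0 (by linarith) (by linarith) hC₀ h1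
  have h3 : ∀ T : ℝ, 3 ≤ T → ∫⁻ u in Set.Icc 3 T, (⨆ (t : ℝ) (_ : |t - u| ≤ 1) (σ : ℝ)
      (_ : m - κ + κ ≤ σ ∧ σ ≤ σ₁), ‖Pool.Agent.H131R5.BZ.FF a w c ((σ : ℂ) + t * Complex.I)‖ₑ ^ 2) ≤
      ENNReal.ofReal (C * T ^ (1 + ε)) := by
    intro T hT
    refine (h2 T hT).trans (ENNReal.ofReal_le_ofReal (mul_le_mul_of_nonneg_left ?_ hC))
    exact Real.rpow_le_rpow_of_exponent_le (by linarith) (by linarith)
  have h2p : (1 : ℝ) ≤ 2 ^ (1 + ε) := Real.one_le_rpow (by norm_num) (by positivity)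
  refine ⟨C * 2 ^ (1 + ε), fun T hT => ⟨?_, ?_⟩⟩
  · have hT0 : 0 < T := by linarith
    refine le_trans ?_ ((h3 T hT).trans (ENNReal.ofReal_le_ofReal ?_))
    · refine setLIntegral_mono' measurableSet_Icc fun t ht => ?_
      refine iSup₂_le fun u hu => iSup₂_le fun σ hσ => ?_
      have hu0 : 0 < u := by linarith [(abs_le.1 hu).1, ht.1]
      rw [zeta_eq ha hw hc hZ σ hu0]
      refine le_iSup₂_of_le u hu (le_iSup₂_of_le σ ⟨?_, hσ.2⟩ le_rfl)
      have := hσ.1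
      rw [hdim] at this
      linarith
    · have h4 : 0 ≤ C * T ^ (1 + ε) := by positivity
      nlinarith
  · intro W σ hW hsep hσ
    have hT0 : 0 < T := by linarith
    have h4 := Pool.Agent.X283.BZ.discrete (F := fun σ t =>
      ‖Pool.Agent.H131R5.BZ.FF a w c ((σ : ℂ) + t * Complex.I)‖ₑ ^ 2) (P := fun σ => m - κ + κ ≤ σ ∧ σ ≤ σ₁)
      h3 hT W σ hW hsep (fun t ht => ⟨by
        have := (hσ t ht).1
        rw [hdim] at this
        linarith, (hσ t ht).2⟩)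
    have h5 : ENNReal.ofReal (∑ t ∈ W, ‖Z (σ t + t * Complex.I)‖ ^ 2) ≤
        ENNReal.ofReal (C * 2 ^ (1 + ε) * T ^ (1 + ε)) := by
      refine le_trans (le_of_eq ?_) h4
      rw [ENNReal.ofReal_sum_of_nonneg fun t _ => by positivity]
      refine Finset.sum_congr rfl fun t ht => ?_
      have ht0 : 0 < t := by linarith [(hW t ht).1]
      rw [zeta_eq ha hw hc hZ (σ t) ht0, ENNReal.ofReal_pow (norm_nonneg _), ofReal_norm]
    exact (ENNReal.ofReal_le_ofReal_iff (by positivity)).1 h5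

end Pool.Agent.Results.MP_047497_nt.MaximalMeanSquare
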