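import Pool.Agent.Results.MP_047497_nt.AlmostAllWeights
import Pool.Agent.X283.DA.Mass

/-!
# The mean square of the Barnes multiple zeta-function over short intervals at real powers and at denominators

For every `d ≥ 1` and almost every `v ∈ ℝ^d` and every countable family of Barnes zeta-functions `ζ_r(·; a, w)` with
weights `w` which span the same `ℚ`-space as `v` and of numbers `σ ≥ r - d/2`: let `0 ≤ θ ≤ 1`, `0 ≤ β ≤ 1`,
`ς = 1 - β + θ`. For all `τ > 1` outside one set of Hausdorff dimension at most `ς`, for almost all `τ` if `β > θ`,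
and ALL members the mean square of `ζ_r(σ + it; a, w)` over the interval `|t - u| ≤ u ^ θ`, `u = τ ^ κ_n`, is at most
`u ^ β`, `n` large; the same for `u = n ^ τ` and for the denominators of good approximations of almost every point of
`ℝ ^ k`. So the bound of Q1 for `k = 1` holds on these intervals, as short as we like (`β = θ + ε`).
-/

set_option autoImplicit false

open Filter Topology MeasureTheory

namespace Pool.Agent.Results.MP_047497_nt.PowersAndDenominators

open Pool.Agent.X283.DA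
open Pool.Agent.Results.MP_047497_nt.AlmostAllWeights (IsBarnesZeta weightDim exists_zeta bound_of_good)

/-- The measure `|Z(σ + it)|² dt`. -/
noncomputable def density (Z : ℂ → ℂ) (σ : ℝ) : Measure ℝ :=
  volume.withDensity (fun t : ℝ => ‖Z (σ + t * Complex.I)‖ₑ ^ 2)

/-- `Z` is the Barnes zeta-function for `a > 0` and the positive weights `w`, `r` in number, which span the
same `ℚ`-space as `v`; and `σ ≥ r - d/2`. -/
def Member {d : ℕ} (v : Fin d → ℝ) (r : ℕ) (w : Fin r → ℝ) (a : ℝ) (Z : ℂ → ℂ) (σ : ℝ) : Prop :=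
  (∀ j, 0 < w j) ∧ Submodule.span ℚ (Set.range w) = Submodule.span ℚ (Set.range v) ∧ 0 < a ∧
    IsBarnesZeta r a w Z ∧ (r : ℝ) - (d : ℝ) / 2 ≤ σ

/-- **Theorem.** (1) The Barnes multiple zeta-function exists for all `r`, `a > 0` and positive weights. (2) For
every `d ≥ 1` and almost every `v ∈ ℝ^d`: for every countable family of Barnes zeta-functions with weights which span
the same `ℚ`-space as `v` (it has dimension `d`) and of `σ ≥ r - d/2`, and `0 ≤ θ ≤ 1`, `0 ≤ β ≤ 1`, the measures
`|Z(σ + it)|² dt` of all members at once have the properties `MassAtPowers`, `MassAtExponents` and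
`MassAtDenominators` with the exponent `1 - β + θ`. -/
theorem result :
    (∀ (r : ℕ) (a : ℝ) (w : Fin r → ℝ), 0 < a → (∀ i, 0 < w i) → ∃ Z : ℂ → ℂ, IsBarnesZeta r a w Z) ∧
    ∀ d : ℕ, 1 ≤ d → ∀ᵐ v : Fin d → ℝ, LinearIndependent ℚ v ∧
      ∀ {ι : Type} [Countable ι] (r : ι → ℕ) (w : ∀ i, Fin (r i) → ℝ) (a : ι → ℝ) (Z : ι → ℂ → ℂ) (σ : ι → ℝ),
        (∀ i, Member v (r i) (w i) (a i) (Z i) (σ i)) → (∀ i, weightDim (r i) (w i) = d) ∧
        ∀ θ β : ℝ, 0 ≤ θ → θ ≤ 1 → 0 ≤ β → β ≤ 1 →
        MassAtPowers (fun i => density (Z i) (σ i)) θ β (1 - β + θ) ∧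
        MassAtExponents (fun i => density (Z i) (σ i)) θ β (1 - β + θ) ∧
        MassAtDenominators (fun i => density (Z i) (σ i)) θ β (1 - β + θ) := by
  refine ⟨exists_zeta, fun d hd => ?_⟩
  filter_upwards [Pool.Agent.Y616.BM.ae_good d, Pool.Agent.Y616.BM.ae_indep d] with v hG hv
  refine ⟨hv, ?_⟩
  intro ι _ r w a Z σ hmem
  refine ⟨fun i => (bound_of_good hd hv hG (hmem i).1 (hmem i).2.1).1, fun θ β hθ hθ1 hβ hβ1 => ?_⟩
  refine mass_pack (fun i => density (Z i) (σ i)) hθ hθ1 hβ hβ1 ?_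
  intro i ε hε
  obtain ⟨hw, hspan, ha, hZ, hσ⟩ := hmem i
  obtain ⟨c, hc⟩ := Pool.Agent.H131R5.BZ.exists_taylor (a i) hw
  obtain ⟨C, hC, hb⟩ := Pool.Agent.Y616.BM.second_moment hd hv hG ha hw hspan hc hσ hε
  have hZF : ∀ t : ℝ, 1 ≤ t → Z i ((σ i : ℂ) + t * Complex.I) =
      Pool.Agent.H131R5.BZ.FF (a i) (w i) c ((σ i : ℂ) + t * Complex.I) := by
    intro t ht
    have hE := Pool.Agent.Y930.Bz.eq_FF ha hw hc (fun s hs => hZ.holomorphic s hs)
      (fun s hs => hZ.series s hs)
    have hm : ((σ i : ℂ) + t * Complex.I) ∈ Pool.Agent.Y930.Bz.Om (r i) := by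
      intro k _ _ h
      have := congrArg Complex.im h
      simp at this
      linarith
    exact hE _ hm
  refine ⟨C, fun X hX => ?_⟩
  unfold density
  rw [withDensity_apply _ measurableSet_Icc]
  refine le_trans (le_of_eq ?_) (hb X hX)
  refine setLIntegral_congr_fun measurableSet_Icc fun t ht => ?_
  rw [hZF t ht.1]

end Pool.Agent.Results.MP_047497_nt.PowersAndDenominators
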